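import Pool.Agent.H33CP.Energy

/-! MP_f64060_pr, Q1: negative answer.

There is a unimodular random rooted triangulation which has, surely, a circle packing with carrier
the open unit disc and with infinite Dirichlet energy of its centres function.

The triangulation is the orbit, under a reflection group of the hyperbolic plane, of a bi-infinite
strip of mutually tangent circles `w k` (consecutive triples mutually tangent) whose walls
`(w k, w (k+2))` meet at `w k` at the angle `π / M k`, with `M k = 4 * 100 ^ |k|`. The vertex `w k`
has degree `6 * M k` and its stabilizer has order of magnitude `M k`, so the root `w k` chosen with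
probability proportional to one over the order of its stabilizer gives a unimodular rooted
triangulation, while the Euclidean radius of `w k` decays only like a fixed exponential, slower
than `(M k) ^ (-1/2)`. -/

namespace Pool.Agent.Results.MP_f64060_pr.InfiniteEnergy

open MeasureTheory Pool.Agent.H33CP

theorem result :
    ∃ (V Ω : Type) (_ : MeasurableSpace Ω) (_ : DiscreteMeasurableSpace Ω) (μ : Measure Ω)
      (T : Ω → Triangulation V) (ρ : Ω → V),
      IsProbabilityMeasure μ ∧ MassTransport μ T ρ ∧
      ∀ ω, ∃ P : CirclePacking (T ω),
        P.carrier = Metric.ball 0 1 ∧ P.triangles = Metric.ball 0 1 ∧ P.energy = ⊤ := by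
  obtain ⟨D, h1, h2⟩ := exists_datum
  exact ⟨D.Vt, ℤ, inferInstance, inferInstance, D.law, fun _ => D.T, D.base, D.law_prob (D.Z_ne_top h2), D.mtp,
    fun _ => ⟨D.P, D.carrier_eq, D.triangles_eq, D.energy_top h1⟩⟩

end Pool.Agent.Results.MP_f64060_pr.InfiniteEnergy
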